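import Mathlib

/-!
# Infinitely many orbits of maximal tori inside `{h₁h₂h₃h₄ = 1} ⊆ GL₂⁴`
-/

open Matrix

namespace Pool.Agent.Results.MP_629379_al.InfinitelyManyOrbits

universe u

variable {K : Type u} [Field K]

/-! ### General definitions -/

/-- The group `GL_n(K)^r`. -/
abbrev GLr (K : Type u) [Field K] (n r : ℕ) : Type u := Fin r → GL (Fin n) K

/-- The algebra of regular functions on `GL_n^r`: the algebra of functions generated by the matrix
entries and the inverses of the determinants. -/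
def regG (K : Type u) [Field K] (n r : ℕ) : Subalgebra K (GLr K n r → K) :=
  Algebra.adjoin K ({f | ∃ (i : Fin r) (j k : Fin n), f = fun h => (h i : Matrix _ _ K) j k} ∪
    {f | ∃ i : Fin r, f = fun h => ((h i : Matrix (Fin n) (Fin n) K).det)⁻¹})

/-- The algebra of regular functions on `𝔾_m^d`: generated by the coordinates and their
inverses. -/
def regT (K : Type u) [Field K] (d : ℕ) : Subalgebra K ((Fin d → Kˣ) → K) :=
  Algebra.adjoin K ({f | ∃ i : Fin d, f = fun t => ((t i : Kˣ) : K)} ∪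
    {f | ∃ i : Fin d, f = fun t => (((t i)⁻¹ : Kˣ) : K)})

/-- Zariski closed subsets of `GL_n^r`. -/
def IsZariskiClosed {n r : ℕ} (C : Set (GLr K n r)) : Prop :=
  ∃ F : Set (GLr K n r → K), F ⊆ regG K n r ∧ C = {h | ∀ f ∈ F, f h = 0}

/-- Tori: closed subgroups isomorphic, as algebraic groups, to some `𝔾_m^d`.  The condition on
`φ` says that pulling back along `φ` identifies the regular functions on the closed subgroup `T`
(restrictions of regular functions of `GL_n^r`) with the regular functions on `𝔾_m^d`. -/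
def IsTorus {n r : ℕ} (T : Subgroup (GLr K n r)) : Prop :=
  IsZariskiClosed (T : Set (GLr K n r)) ∧
    ∃ (d : ℕ) (φ : (Fin d → Kˣ) ≃* T), ∀ u : (Fin d → Kˣ) → K,
      u ∈ regT K d ↔ ∃ f ∈ regG K n r, u = fun t => f (φ t)

/-- The subvariety `X = {h | M₁ h₁ M₂ h₂ ⋯ M_r h_r M_{r+1} = 1}`. -/
def XX {n r : ℕ} (M : Fin (r + 1) → GL (Fin n) K) : Set (GLr K n r) :=
  {h | (List.ofFn fun i : Fin r => M i.castSucc * h i).prod * M (Fin.last r) = 1}

/-- Maximal tori contained in a subset `X`. -/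
def IsMaxTorusIn {n r : ℕ} (X : Set (GLr K n r)) (T : Subgroup (GLr K n r)) : Prop :=
  IsTorus T ∧ (T : Set (GLr K n r)) ⊆ X ∧
    ∀ T' : Subgroup (GLr K n r), IsTorus T' → (T' : Set (GLr K n r)) ⊆ X → T ≤ T' → T' = T

/-- Automorphisms of the algebraic group `GL_n^r`. -/
def IsAlgAut {n r : ℕ} (σ : GLr K n r ≃* GLr K n r) : Prop :=
  (∀ f ∈ regG K n r, (fun h => f (σ h)) ∈ regG K n r) ∧
    (∀ f ∈ regG K n r, (fun h => f (σ.symm h)) ∈ regG K n r)

/-- The group `H` of automorphisms of the algebraic group `GL_n^r` which stabilize `X`. -/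
def InH {n r : ℕ} (X : Set (GLr K n r)) (σ : GLr K n r ≃* GLr K n r) : Prop :=
  IsAlgAut σ ∧ σ '' X = X

/-- The `H`-orbit of a subgroup. -/
def orbitH {n r : ℕ} (X : Set (GLr K n r)) (T : Subgroup (GLr K n r)) :
    Set (Subgroup (GLr K n r)) :=
  {T' | ∃ σ, InH X σ ∧ T' = T.map σ.toMonoidHom}

/-- The set of all `H`-orbits of maximal tori lying in `X`. -/
def maxTorusOrbits {n r : ℕ} (X : Set (GLr K n r)) : Set (Set (Subgroup (GLr K n r))) :=
  {O | ∃ T, IsMaxTorusIn X T ∧ O = orbitH X T}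

/-- Semisimple, i.e. diagonalizable, matrices. -/
def IsDiagonalizable {n : ℕ} (A : GL (Fin n) K) : Prop :=
  ∃ (P : GL (Fin n) K) (d : Fin n → K), (P * A * P⁻¹ : GL (Fin n) K) = Matrix.diagonal d

/-! ### Two by two matrices -/

section Two

variable [CharZero K]

/-- Two by two matrices. -/
abbrev M2 (K : Type u) : Type u := Matrix (Fin 2) (Fin 2) K

/-- The matrices in the torus centralizing `!![0, ζ; ζ⁻¹, 0]`. -/
def Pm (ζ : Kˣ) (a b : K) : Matrix (Fin 2) (Fin 2) K :=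
  !![(a + b) / 2, ζ * ((a - b) / 2); (ζ⁻¹ : Kˣ) * ((a - b) / 2), (a + b) / 2]

theorem Pm_mul (ζ : Kˣ) (a b c d : K) : Pm ζ a b * Pm ζ c d = Pm ζ (a * c) (b * d) := by
  have h1 : (ζ : K) * (ζ⁻¹ : Kˣ) = 1 := Units.mul_inv ζ
  unfold Pm
  ext i j
  fin_cases i <;> fin_cases j <;>
    simp only [Matrix.mul_apply, Fin.sum_univ_two, Matrix.of_apply, Matrix.cons_val',
      Matrix.cons_val_zero, Matrix.cons_val_one, Fin.zero_eta, Fin.mk_one, Fin.isValue]
  · linear_combination ((a - b) / 2 * ((c - d) / 2)) * h1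
  · ring
  · ring
  · linear_combination ((a - b) / 2 * ((c - d) / 2)) * h1

theorem Pm_one (ζ : Kˣ) : Pm ζ 1 1 = 1 := by
  unfold Pm
  ext i j
  fin_cases i <;> fin_cases j <;> simp

/-- The homomorphism `𝔾_m² → GL₂` onto the torus. -/
def P (ζ : Kˣ) : Kˣ × Kˣ →* GL (Fin 2) K where
  toFun x := ⟨Pm ζ x.1 x.2, Pm ζ (x.1⁻¹ : Kˣ) (x.2⁻¹ : Kˣ),
    by rw [Pm_mul, Units.mul_inv, Units.mul_inv, Pm_one],
    by rw [Pm_mul, Units.inv_mul, Units.inv_mul, Pm_one]⟩
  map_one' := Units.ext (Pm_one ζ)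
  map_mul' x y := Units.ext (by
    show Pm ζ _ _ = Pm ζ _ _ * Pm ζ _ _
    rw [Pm_mul]; rfl)

theorem P_val (ζ : Kˣ) (x : Kˣ × Kˣ) : ((P ζ x : GL (Fin 2) K) : M2 K) =
    Pm ζ x.1 x.2 := rfl

/-- The involution `!![0, ζ; ζ⁻¹, 0]`. -/
def w (ζ : Kˣ) : GL (Fin 2) K := P ζ (1, -1)

theorem w_val (ζ : Kˣ) : ((w ζ : GL (Fin 2) K) : M2 K) = !![0, (ζ : K); (ζ⁻¹ : Kˣ), 0] := by
  unfold w
  rw [P_val]
  unfold Pm
  ext i j
  fin_cases i <;> fin_cases j <;> simp

theorem w_mul_self (ζ : Kˣ) : w ζ * w ζ = 1 := by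
  unfold w
  rw [← map_mul]
  have : ((1, -1) * (1, -1) : Kˣ × Kˣ) = 1 := by ext <;> simp
  rw [this, map_one]

theorem entries_of_commute {g : GL (Fin 2) K} {ζ : Kˣ} (h : Commute g (w ζ)) :
    (g : M2 K) 0 0 = (g : M2 K) 1 1 ∧
      (g : M2 K) 0 1 * (ζ⁻¹ : Kˣ) = ζ * (g : M2 K) 1 0 := by
  have h1 : (g : M2 K) * (w ζ : M2 K) = (w ζ : M2 K) * (g : M2 K) :=
    congrArg Units.val h.eq
  rw [w_val] at h1
  have h00 := congrFun (congrFun h1 0) 0
  have h01 := congrFun (congrFun h1 0) 1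
  simp only [Matrix.mul_apply, Fin.sum_univ_two, Matrix.of_apply, Matrix.cons_val',
      Matrix.cons_val_zero, Matrix.cons_val_one, Fin.isValue, mul_zero, zero_mul, zero_add,
      add_zero] at h00 h01
  refine ⟨?_, h00⟩
  have : (g : M2 K) 0 0 * (ζ : K) = (g : M2 K) 1 1 * (ζ : K) := by
    rw [h01, mul_comm]
  exact mul_right_cancel₀ ζ.ne_zero this

theorem exists_P_of_commute {g : GL (Fin 2) K} {ζ : Kˣ} (h : Commute g (w ζ)) :
    ∃ x : Kˣ × Kˣ, g = P ζ x := by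
  obtain ⟨h1, h2⟩ := entries_of_commute h
  set p := (g : M2 K) 0 0 with hp
  set q := (g : M2 K) 0 1 * (ζ⁻¹ : Kˣ) with hq
  have hz : (ζ : K) * (ζ⁻¹ : Kˣ) = 1 := Units.mul_inv ζ
  have e01 : (g : M2 K) 0 1 = ζ * q := by
    rw [hq]; linear_combination (-(g : M2 K) 0 1) * hz
  have e10 : (g : M2 K) 1 0 = (ζ⁻¹ : Kˣ) * q := by
    rw [h2]; linear_combination (-(g : M2 K) 1 0) * hz
  have hdet : (g : M2 K).det ≠ 0 := by
    have : IsUnit (g : M2 K).det := (Matrix.isUnit_iff_isUnit_det _).mp g.isUnit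
    exact this.ne_zero
  have hfac : (g : M2 K).det = (p + q) * (p - q) := by
    rw [Matrix.det_fin_two, ← h1, e01, e10, ← hp]
    linear_combination (-q * q) * hz
  rw [hfac] at hdet
  refine ⟨(Units.mk0 (p + q) (left_ne_zero_of_mul hdet),
    Units.mk0 (p - q) (right_ne_zero_of_mul hdet)), ?_⟩
  apply Units.ext
  rw [P_val]
  show (g : M2 K) = Pm ζ (p + q) (p - q)
  unfold Pm
  ext i j
  fin_cases i <;> fin_cases j
  · show (g : M2 K) 0 0 = (p + q + (p - q)) / 2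
    rw [← hp]; ring
  · show (g : M2 K) 0 1 = ζ * ((p + q - (p - q)) / 2)
    rw [e01]; ring
  · show (g : M2 K) 1 0 = (ζ⁻¹ : Kˣ) * ((p + q - (p - q)) / 2)
    rw [e10]; ring
  · show (g : M2 K) 1 1 = (p + q + (p - q)) / 2
    rw [← h1]; ring

theorem P_commute_w (ζ : Kˣ) (x : Kˣ × Kˣ) : Commute (P ζ x) (w ζ) := by
  show P ζ x * P ζ _ = P ζ _ * P ζ x
  rw [← map_mul, mul_comm, map_mul]

/-! ### The center of `GL₂` -/

theorem mem_center_iff {g : GL (Fin 2) K} : g ∈ Subgroup.center (GL (Fin 2) K) ↔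
    (g : M2 K) 0 1 = 0 ∧ (g : M2 K) 1 0 = 0 ∧
      (g : M2 K) 0 0 = (g : M2 K) 1 1 := by
  constructor
  · intro h
    have h1 : Commute g (w 1) := ((Subgroup.mem_center_iff.mp h) (w 1)).symm
    have h2 : Commute g (w (Units.mk0 2 two_ne_zero)) :=
      ((Subgroup.mem_center_iff.mp h) (w (Units.mk0 2 two_ne_zero))).symm
    obtain ⟨a1, a2⟩ := entries_of_commute h1
    obtain ⟨-, b2⟩ := entries_of_commute h2
    rw [inv_one, Units.val_one, mul_one, one_mul] at a2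
    rw [Units.val_inv_eq_inv_val, Units.val_mk0, a2] at b2
    have h3 : (g : M2 K) 1 0 = 0 := by
      have : (3 / 2 : K) * (g : M2 K) 1 0 = 0 := by linear_combination (-1 : K) * b2
      rcases mul_eq_zero.mp this with h | h
      · exfalso; norm_num at h
      · exact h
    exact ⟨by rw [a2, h3], h3, a1⟩
  · rintro ⟨h1, h2, h3⟩
    rw [Subgroup.mem_center_iff]
    intro x
    apply Units.ext
    show (x : M2 K) * (g : M2 K) = (g : M2 K) * (x : M2 K)
    ext i j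
    fin_cases i <;> fin_cases j <;>
      simp [Matrix.mul_apply, Fin.sum_univ_two, h1, h2, h3, mul_comm]

/-- Upper unipotent matrices. -/
def Um (t : K) : GL (Fin 2) K := ⟨!![1, t; 0, 1], !![1, -t; 0, 1],
  by ext i j; fin_cases i <;> fin_cases j <;> simp,
  by ext i j; fin_cases i <;> fin_cases j <;> simp⟩

/-- Lower unipotent matrices. -/
def Lm (t : K) : GL (Fin 2) K := ⟨!![1, 0; t, 1], !![1, 0; -t, 1],
  by ext i j; fin_cases i <;> fin_cases j <;> simp,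
  by ext i j; fin_cases i <;> fin_cases j <;> simp⟩

omit [CharZero K] in
theorem commute_entries {X Y : M2 K} (h : X * Y = Y * X) :
    X 0 1 * Y 1 0 = Y 0 1 * X 1 0 ∧ Y 0 1 * (X 0 0 - X 1 1) = X 0 1 * (Y 0 0 - Y 1 1) ∧
      Y 1 0 * (X 0 0 - X 1 1) = X 1 0 * (Y 0 0 - Y 1 1) := by
  have h00 := congrFun (congrFun h 0) 0
  have h01 := congrFun (congrFun h 0) 1
  have h10 := congrFun (congrFun h 1) 0
  simp only [Matrix.mul_apply, Fin.sum_univ_two] at h00 h01 h10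
  refine ⟨?_, ?_, ?_⟩
  · linear_combination h00
  · linear_combination h01
  · linear_combination (-1 : K) * h10

theorem center_of_commute_conj {x y : GL (Fin 2) K}
    (hx : x ∉ Subgroup.center (GL (Fin 2) K)) (h : ∀ g, Commute (g * x * g⁻¹) y) :
    y ∈ Subgroup.center (GL (Fin 2) K) := by
  set X := (x : M2 K) with hX
  set Y := (y : M2 K) with hY
  have hU : ∀ t : K, (X 0 1 + t * (X 1 1 - X 0 0) - t * t * X 1 0) * Y 1 0 = Y 0 1 * X 1 0 ∧
      Y 0 1 * (X 0 0 - X 1 1 + 2 * t * X 1 0) =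
        (X 0 1 + t * (X 1 1 - X 0 0) - t * t * X 1 0) * (Y 0 0 - Y 1 1) ∧
      Y 1 0 * (X 0 0 - X 1 1 + 2 * t * X 1 0) = X 1 0 * (Y 0 0 - Y 1 1) := by
    intro t
    have h1 : (!![1, t; 0, 1] * X * !![1, -t; 0, 1]) * Y =
        Y * (!![1, t; 0, 1] * X * !![1, -t; 0, 1]) := congrArg Units.val (h (Um t)).eq
    obtain ⟨e1, e2, e3⟩ := commute_entries h1
    simp only [Matrix.mul_apply, Fin.sum_univ_two, Matrix.of_apply, Matrix.cons_val',
      Matrix.cons_val_zero, Matrix.cons_val_one, Fin.isValue] at e1 e2 e3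
    refine ⟨?_, ?_, ?_⟩
    · linear_combination e1
    · linear_combination e2
    · linear_combination e3
  have hL : ∀ t : K, (X 1 0 + t * (X 0 0 - X 1 1) - t * t * X 0 1) * Y 0 1 = Y 1 0 * X 0 1 ∧
      Y 0 1 * (X 0 0 - X 1 1 - 2 * t * X 0 1) = X 0 1 * (Y 0 0 - Y 1 1) := by
    intro t
    have h1 : (!![1, 0; t, 1] * X * !![1, 0; -t, 1]) * Y =
        Y * (!![1, 0; t, 1] * X * !![1, 0; -t, 1]) := congrArg Units.val (h (Lm t)).eq
    obtain ⟨e1, e2, e3⟩ := commute_entries h1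
    simp only [Matrix.mul_apply, Fin.sum_univ_two, Matrix.of_apply, Matrix.cons_val',
      Matrix.cons_val_zero, Matrix.cons_val_one, Fin.isValue] at e1 e2 e3
    refine ⟨?_, ?_⟩
    · linear_combination (-1 : K) * e1
    · linear_combination e2
  obtain ⟨u1, u2, u3⟩ := hU 0
  obtain ⟨v1, v2, v3⟩ := hU 1
  obtain ⟨w1, w2, w3⟩ := hU (-1)
  obtain ⟨l1, l2⟩ := hL 0
  obtain ⟨m1, m2⟩ := hL 1
  obtain ⟨n1, n2⟩ := hL (-1)
  have hr1 : X 1 0 * Y 1 0 = 0 := by
    have : (2 : K) * (X 1 0 * Y 1 0) = 0 := by linear_combination 2 * u1 - v1 - w1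
    rcases mul_eq_zero.mp this with h' | h'
    · exact absurd h' two_ne_zero
    · exact h'
  have hr2 : (X 1 1 - X 0 0) * Y 1 0 = 0 := by linear_combination v1 - u1 + hr1
  have hq1 : X 0 1 * Y 0 1 = 0 := by
    have : (2 : K) * (X 0 1 * Y 0 1) = 0 := by linear_combination 2 * l1 - m1 - n1
    rcases mul_eq_zero.mp this with h' | h'
    · exact absurd h' two_ne_zero
    · exact h'
  have hq2 : (X 1 1 - X 0 0) * Y 0 1 = 0 := by linear_combination l1 - m1 - hq1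
  have hs1 : X 1 0 * (Y 0 0 - Y 1 1) = 0 := by linear_combination -u3 - hr2
  have hs2 : X 0 1 * (Y 0 0 - Y 1 1) = 0 := by linear_combination -u2 - hq2
  have hs3 : (X 1 1 - X 0 0) * (Y 0 0 - Y 1 1) = 2 * (X 1 0 * Y 0 1) := by
    linear_combination v2 * (-1 : K) - hs2 + hs1 - hq2
  rw [mem_center_iff] at hx ⊢
  show Y 0 1 = 0 ∧ Y 1 0 = 0 ∧ Y 0 0 = Y 1 1
  by_cases hc : X 1 0 = 0
  · by_cases hb : X 0 1 = 0
    · have ha : X 1 1 - X 0 0 ≠ 0 := by
        intro h'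
        exact hx ⟨hb, hc, (sub_eq_zero.mp h').symm⟩
      rw [hc, zero_mul, mul_zero] at hs3
      exact ⟨(mul_eq_zero.mp hq2).resolve_left ha, (mul_eq_zero.mp hr2).resolve_left ha,
        sub_eq_zero.mp ((mul_eq_zero.mp hs3).resolve_left ha)⟩
    · refine ⟨(mul_eq_zero.mp hq1).resolve_left hb, ?_,
        sub_eq_zero.mp ((mul_eq_zero.mp hs2).resolve_left hb)⟩
      have : X 0 1 * Y 1 0 = 0 := by
        rw [hc] at u1; linear_combination u1
      exact (mul_eq_zero.mp this).resolve_left hb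
  · refine ⟨?_, (mul_eq_zero.mp hr1).resolve_left hc,
      sub_eq_zero.mp ((mul_eq_zero.mp hs1).resolve_left hc)⟩
    have h10 := (mul_eq_zero.mp hr1).resolve_left hc
    have : X 1 0 * Y 0 1 = 0 := by
      rw [h10] at u1; linear_combination -u1
    exact (mul_eq_zero.mp this).resolve_left hc

theorem P_mem_center_iff {ζ : Kˣ} {x : Kˣ × Kˣ} :
    P ζ x ∈ Subgroup.center (GL (Fin 2) K) ↔ x.1 = x.2 := by
  rw [mem_center_iff, P_val]
  unfold Pm
  simp only [Matrix.of_apply, Matrix.cons_val', Matrix.cons_val_zero, Matrix.cons_val_one,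
    Fin.isValue]
  constructor
  · rintro ⟨h, -, -⟩
    have h1 : ((x.1 : K) - x.2) / 2 = 0 := (mul_eq_zero.mp h).resolve_left ζ.ne_zero
    have h2 : ((x.1 : K) - x.2) = 0 := by
      rcases div_eq_zero_iff.mp h1 with h | h
      · exact h
      · exact absurd h two_ne_zero
    exact Units.ext (sub_eq_zero.mp h2)
  · intro h
    rw [h]
    simp

theorem w_notMem_center (ζ : Kˣ) : w ζ ∉ Subgroup.center (GL (Fin 2) K) := by
  unfold w
  rw [P_mem_center_iff]
  intro h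
  have h1 : (1 : K) = -1 := congrArg Units.val h
  have h2 : (2 : K) = 0 := by linear_combination h1
  exact two_ne_zero h2

/-- The quotient map onto `PGL₂`. -/
def rho : GL (Fin 2) K →* GL (Fin 2) K ⧸ Subgroup.center (GL (Fin 2) K) :=
  QuotientGroup.mk' _

omit [CharZero K] in
theorem rho_eq_one {g : GL (Fin 2) K} : rho g = 1 ↔ g ∈ Subgroup.center (GL (Fin 2) K) :=
  QuotientGroup.eq_one_iff g

theorem rho_eq_w {ζ : Kˣ} {g : GL (Fin 2) K} (hg : Commute g (w ζ)) (h1 : rho g ≠ 1)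
    (h2 : rho g * rho g = 1) : rho g = rho (w ζ) := by
  obtain ⟨⟨a, b⟩, rfl⟩ := exists_P_of_commute hg
  rw [← map_mul, ← map_mul, rho_eq_one, P_mem_center_iff] at h2
  rw [ne_eq, rho_eq_one, P_mem_center_iff] at h1
  have h3 : ((a : K) - b) * ((a : K) + b) = 0 := by
    have : (a : K) * a = b * b := congrArg Units.val h2
    linear_combination this
  have h4 : (a : K) = -b := by
    rcases mul_eq_zero.mp h3 with h | h
    · exact absurd (Units.ext (sub_eq_zero.mp h)) h1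
    · exact eq_neg_of_add_eq_zero_left h
  have h5 : ((a, b) : Kˣ × Kˣ) = (a, a) * (1, -1) := by
    apply Prod.ext
    · simp
    · apply Units.ext
      simp [h4]
  rw [h5, map_mul, map_mul]
  have h6 : rho (P ζ (a, a)) = 1 := by
    rw [rho_eq_one, P_mem_center_iff]
  rw [h6, one_mul]; rfl

theorem w_mul_w (ζ ξ : Kˣ) : ((w ζ * w ξ : GL (Fin 2) K) : M2 K) =
    !![((ζ * ξ⁻¹ : Kˣ) : K), 0; 0, ((ζ⁻¹ * ξ : Kˣ) : K)] := by
  rw [Units.val_mul, w_val, w_val]
  ext i j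
  fin_cases i <;> fin_cases j <;> simp

omit [CharZero K] in
theorem diag_pow (a b : K) (m : ℕ) : (!![a, 0; 0, b] : M2 K) ^ m = !![a ^ m, 0; 0, b ^ m] := by
  induction m with
  | zero => ext i j; fin_cases i <;> fin_cases j <;> simp
  | succ m ih =>
    rw [pow_succ, ih]
    ext i j
    fin_cases i <;> fin_cases j <;> simp [pow_succ]

theorem w_mul_w_pow {ζ ξ : Kˣ} {m : ℕ} :
    (w ζ * w ξ) ^ m ∈ Subgroup.center (GL (Fin 2) K) ↔ (ζ * ξ⁻¹) ^ (2 * m) = 1 := by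
  rw [mem_center_iff, Units.val_pow_eq_pow_val, w_mul_w, diag_pow]
  simp only [Matrix.of_apply, Matrix.cons_val', Matrix.cons_val_zero, Matrix.cons_val_one,
    Fin.isValue, true_and]
  rw [← Units.val_pow_eq_pow_val, ← Units.val_pow_eq_pow_val, Units.val_inj, two_mul, pow_add]
  have h1 : (ζ⁻¹ * ξ) ^ m * (ζ * ξ⁻¹) ^ m = 1 := by
    rw [← mul_pow]
    have : ζ⁻¹ * ξ * (ζ * ξ⁻¹) = 1 := by
      rw [mul_comm ζ⁻¹ ξ, mul_assoc, inv_mul_cancel_left, mul_inv_cancel]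
    rw [this, one_pow]
  constructor
  · intro h
    rw [h] at h1 ⊢
    exact h1
  · intro h
    exact mul_right_cancel (h.trans h1.symm)

/-! ### Rigidity of group automorphisms of `GL₂⁴` -/

/-- `GL₂⁴` -/
abbrev G4 (K : Type u) [Field K] : Type u := GLr K 2 4

/-- The subset `h₁h₂h₃h₄ = 1`. -/
def X4 (K : Type u) [Field K] : Set (G4 K) := {h | h 0 * h 1 * h 2 * h 3 = 1}

/-- All conjugates of `x` commute with `y`. -/
def Dj (x y : G4 K) : Prop := ∀ g : G4 K, Commute (g * x * g⁻¹) y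

theorem Dj_iff {x y : G4 K} : Dj x y ↔ ∀ i, rho (x i) = 1 ∨ rho (y i) = 1 := by
  simp only [rho_eq_one]
  constructor
  · intro h i
    by_contra hcon
    push Not at hcon
    apply hcon.2
    apply center_of_commute_conj hcon.1
    intro g
    have h1 := congrFun (h (Pi.mulSingle i g)).eq i
    simp only [Pi.mul_apply, Pi.inv_apply, Pi.mulSingle_eq_same] at h1
    exact h1
  · intro h g
    show _ = _
    funext i
    simp only [Pi.mul_apply, Pi.inv_apply]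
    rcases h i with h | h
    · have h1 : g i * x i * (g i)⁻¹ = x i := by
        rw [(Subgroup.mem_center_iff.mp h) (g i), mul_inv_cancel_right]
      rw [h1]
      exact ((Subgroup.mem_center_iff.mp h) (y i)).symm
    · exact (Subgroup.mem_center_iff.mp h) _

omit [CharZero K] in
theorem Dj_map (σ : G4 K ≃* G4 K) {x y : G4 K} : Dj x y ↔ Dj (σ x) (σ y) := by
  constructor
  · intro h g
    have h1 := (h (σ.symm g)).map σ
    simpa using h1
  · intro h g
    have h1 := (h (σ g)).map σ.symm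
    simpa using h1

omit [CharZero K] in
theorem prod4 {Q : Type*} [Group Q] (f : Fin 4 → Q) (h : f 0 * f 1 * f 2 * f 3 = 1) {p q : Fin 4}
    (hpq : p ≠ q) (hh : ∀ k, k ≠ p → k ≠ q → f k = 1) : f p * f q = 1 := by
  have a0 := hh 0
  have a1 := hh 1
  have a2 := hh 2
  have a3 := hh 3
  clear hh
  fin_cases p <;> fin_cases q <;> first
    | exact absurd rfl hpq
    | (simp at a0 a1 a2 a3 ⊢
       simp only [*, mul_one, one_mul] at h
       first
        | exact h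
        | exact mul_eq_one_comm.mp h)

omit [CharZero K] in
theorem rho_prod_of_mem_X4 {h : G4 K} (hX : h ∈ X4 K) {p q : Fin 4} (hpq : p ≠ q)
    (hh : ∀ k, k ≠ p → k ≠ q → rho (h k) = 1) : rho (h p) * rho (h q) = 1 := by
  apply prod4 (fun k => rho (h k)) _ hpq hh
  show rho (h 0) * rho (h 1) * rho (h 2) * rho (h 3) = 1
  rw [← map_mul, ← map_mul, ← map_mul]
  have : h 0 * h 1 * h 2 * h 3 = 1 := hX
  rw [this, map_one]

omit [CharZero K] in
theorem pair_mem_X4 {i j : Fin 4} (hij : i ≠ j) (g : GL (Fin 2) K) :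
    (Pi.mulSingle i g * Pi.mulSingle j g⁻¹ : G4 K) ∈ X4 K := by
  show _ * _ * _ * _ = 1
  fin_cases i <;> fin_cases j <;> first
    | exact absurd rfl hij
    | simp [Pi.mulSingle_apply]

/-- The structure of automorphisms of the group `GL₂⁴` preserving `X`. -/
theorem rigid (σ : G4 K ≃* G4 K) (hσ : ∀ h ∈ X4 K, σ h ∈ X4 K) :
    ∃ (π : Fin 4 → Fin 4) (θ : GL (Fin 2) K →* GL (Fin 2) K ⧸ Subgroup.center (GL (Fin 2) K)),
      Function.Injective π ∧ (∀ i g j, j ≠ π i → rho (σ (Pi.mulSingle i g) j) = 1) ∧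
      (∀ i g, rho (σ (Pi.mulSingle i g) (π i)) = θ g) ∧
      (∀ g, θ g = 1 ↔ rho g = 1) := by
  -- non-central elements are mapped to non-central elements
  have hcen : ∀ x : G4 K, (∀ i, rho (σ x i) = 1) ↔ ∀ i, rho (x i) = 1 := by
    intro x
    have h1 := Dj_map σ (x := x) (y := x)
    rw [Dj_iff, Dj_iff] at h1
    simp only [or_self] at h1
    exact h1.symm
  have hw : rho (w (1 : Kˣ)) ≠ 1 := fun h => w_notMem_center _ (rho_eq_one.mp h)
  have hex : ∀ i : Fin 4, ∃ j, rho (σ (Pi.mulSingle i (w 1)) j) ≠ 1 := by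
    intro i
    by_contra hcon
    push Not at hcon
    apply hw
    have := (hcen _).mp hcon i
    rwa [Pi.mulSingle_eq_same] at this
  choose π hπ using hex
  -- disjointness of supports
  have hdis : ∀ i : Fin 4, ∀ x : G4 K, rho (x i) = 1 → rho (σ x (π i)) = 1 := by
    intro i x hx
    have h1 : Dj x (Pi.mulSingle i (w 1)) := by
      rw [Dj_iff]
      intro j
      by_cases hj : j = i
      · left; rw [hj]; exact hx
      · right; rw [Pi.mulSingle_eq_of_ne hj, map_one]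
    rw [Dj_map σ, Dj_iff] at h1
    exact (h1 (π i)).resolve_right (hπ i)
  have hinj : Function.Injective π := by
    intro i j hij
    by_contra hne
    apply hπ i
    rw [hij]
    apply hdis j
    rw [Pi.mulSingle_eq_of_ne (Ne.symm hne), map_one]
  have hbij : Function.Bijective π := Finite.injective_iff_bijective.mp hinj
  have hother : ∀ i g j, j ≠ π i → rho (σ (Pi.mulSingle i g) j) = 1 := by
    intro i g j hj
    obtain ⟨k, rfl⟩ := hbij.2 j
    apply hdis k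
    have : k ≠ i := fun h => hj (by rw [h])
    rw [Pi.mulSingle_eq_of_ne this, map_one]
  -- the homomorphisms
  let τ : Fin 4 → GL (Fin 2) K →* GL (Fin 2) K ⧸ Subgroup.center (GL (Fin 2) K) := fun i =>
    (rho.comp (Pi.evalMonoidHom (fun _ : Fin 4 => GL (Fin 2) K) (π i))).comp (σ.toMonoidHom.comp (MonoidHom.mulSingle (fun _ : Fin 4 => GL (Fin 2) K) i))
  have hτ : ∀ i g, τ i g = rho (σ (Pi.mulSingle i g) (π i)) := fun _ _ => rfl
  have heq : ∀ i j g, τ i g = τ j g := by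
    intro i j g
    by_cases hij : i = j
    · rw [hij]
    · have h1 := hσ _ (pair_mem_X4 hij g)
      have hpq : π i ≠ π j := fun h => hij (hinj h)
      have h2 := rho_prod_of_mem_X4 h1 hpq (by
        intro k hk1 hk2
        rw [map_mul, Pi.mul_apply, map_mul, hother _ _ _ hk1, hother _ _ _ hk2, one_mul])
      rw [map_mul, Pi.mul_apply, Pi.mul_apply, map_mul, map_mul, hother _ _ _ hpq,
        hother _ _ _ hpq.symm, mul_one, one_mul, ← hτ, ← hτ, map_inv, mul_inv_eq_one] at h2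
      exact h2
  refine ⟨π, τ 0, hinj, hother, fun i g => (hτ i g).symm.trans (heq i 0 g), ?_⟩
  intro g
  have h1 := hcen (Pi.mulSingle 0 g)
  constructor
  · intro h
    have h2 : ∀ i, rho (σ (Pi.mulSingle 0 g) i) = 1 := by
      intro i
      by_cases hi : i = π 0
      · rw [hi]; exact h
      · exact hother _ _ _ hi
    have := (h1.mp h2) 0
    rwa [Pi.mulSingle_eq_same] at this
  · intro h
    rw [hτ]
    apply h1.mpr
    intro i
    by_cases hi : i = 0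
    · rw [hi, Pi.mulSingle_eq_same]; exact h
    · rw [Pi.mulSingle_eq_of_ne hi, map_one]

/-- The conditions defining the torus `T_ζ`. -/
def InT (ζ : Kˣ) (h : G4 K) : Prop :=
  Commute (h 0) (w 1) ∧ Commute (h 1) (w 1) ∧ Commute (h 2) (w ζ) ∧ Commute (h 3) (w ζ) ∧
    h ∈ X4 K

theorem exists_params {ζ : Kˣ} (hζ : ζ ^ 2 ≠ 1) {h : G4 K} (hh : InT ζ h) :
    ∃ a b c d z : Kˣ, h 0 = P 1 (a, b) ∧ h 1 = P 1 (a⁻¹ * z, b⁻¹ * z) ∧ h 2 = P ζ (c, d) ∧
      h 3 = P ζ (c⁻¹ * z⁻¹, d⁻¹ * z⁻¹) := by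
  obtain ⟨h0, h1, h2, h3, hX⟩ := hh
  obtain ⟨⟨a, b⟩, e0⟩ := exists_P_of_commute h0
  obtain ⟨⟨a', b'⟩, e1⟩ := exists_P_of_commute h1
  obtain ⟨⟨c, d⟩, e2⟩ := exists_P_of_commute h2
  obtain ⟨⟨c', d'⟩, e3⟩ := exists_P_of_commute h3
  have hX' : h 0 * h 1 * h 2 * h 3 = 1 := hX
  rw [e0, e1, e2, e3, ← map_mul, mul_assoc, ← map_mul] at hX'
  have h4 : P (1 : Kˣ) (a * a', b * b') = P ζ ((c * c')⁻¹, (d * d')⁻¹) := by
    have : P ζ ((c * c')⁻¹, (d * d')⁻¹) = (P ζ (c * c', d * d'))⁻¹ := by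
      rw [← map_inv]; rfl
    rw [this]
    exact eq_inv_of_mul_eq_one_left hX'
  have h5 : Pm (1 : Kˣ) ((a * a' : Kˣ) : K) ((b * b' : Kˣ) : K) =
      Pm ζ (((c * c')⁻¹ : Kˣ) : K) (((d * d')⁻¹ : Kˣ) : K) := congrArg Units.val h4
  generalize hA : ((a * a' : Kˣ) : K) = A at h5
  generalize hB : ((b * b' : Kˣ) : K) = B at h5
  generalize hC : (((c * c')⁻¹ : Kˣ) : K) = C at h5
  generalize hD : (((d * d')⁻¹ : Kˣ) : K) = D at h5
  have e00 := congrFun (congrFun h5 0) 0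
  have e01 := congrFun (congrFun h5 0) 1
  have e10 := congrFun (congrFun h5 1) 0
  unfold Pm at e00 e01 e10
  simp only [Matrix.of_apply, Matrix.cons_val', Matrix.cons_val_zero, Matrix.cons_val_one,
    Fin.isValue, inv_one, Units.val_one, one_mul] at e00 e01 e10
  have h6 : ((ζ : K) - (ζ⁻¹ : Kˣ)) * ((C - D) / 2) = 0 := by linear_combination e10 - e01
  have h7 : (ζ : K) - (ζ⁻¹ : Kˣ) ≠ 0 := by
    intro h
    apply hζ
    have : (ζ : K) = ((ζ⁻¹ : Kˣ) : K) := sub_eq_zero.mp h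
    have h8 : ζ = ζ⁻¹ := Units.ext this
    rw [pow_two]
    nth_rewrite 2 [h8]
    exact mul_inv_cancel ζ
  have h8 : (C - D) / 2 = 0 := (mul_eq_zero.mp h6).resolve_left h7
  have h9 : C = D := by
    rcases div_eq_zero_iff.mp h8 with h | h
    · exact sub_eq_zero.mp h
    · exact absurd h two_ne_zero
  rw [h8, mul_zero] at e01
  have h10 : A = B := by
    rcases div_eq_zero_iff.mp e01 with h | h
    · exact sub_eq_zero.mp h
    · exact absurd h two_ne_zero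
  have h11 : A = C := by
    rw [← h9, ← h10] at e00
    have : (2 : K) ≠ 0 := two_ne_zero
    field_simp at e00
    linear_combination e00
  have u1 : b * b' = a * a' := Units.ext (by rw [hA, hB, h10])
  have u2 : (c * c')⁻¹ = a * a' := Units.ext (by rw [hA, hC, h11])
  have u3 : (d * d')⁻¹ = a * a' := Units.ext (by rw [hA, hD, h11, h9])
  refine ⟨a, b, c, d, a * a', e0, ?_, e2, ?_⟩
  · rw [e1]
    congr 2
    · rw [inv_mul_cancel_left]
    · rw [← u1, inv_mul_cancel_left]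
  · rw [e3]
    congr 2
    · rw [← u2, inv_inv, inv_mul_cancel_left]
    · rw [← u3, inv_inv, inv_mul_cancel_left]

theorem InT.rho01 {ζ : Kˣ} (hζ : ζ ^ 2 ≠ 1) {h : G4 K} (hh : InT ζ h) :
    rho (h 0) * rho (h 1) = 1 ∧ rho (h 2) * rho (h 3) = 1 := by
  obtain ⟨a, b, c, d, z, e0, e1, e2, e3⟩ := exists_params hζ hh
  constructor
  · rw [← map_mul, e0, e1, ← map_mul, rho_eq_one, P_mem_center_iff]
    show a * (a⁻¹ * z) = b * (b⁻¹ * z)
    rw [mul_inv_cancel_left, mul_inv_cancel_left]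
  · rw [← map_mul, e2, e3, ← map_mul, rho_eq_one, P_mem_center_iff]
    show c * (c⁻¹ * z⁻¹) = d * (d⁻¹ * z⁻¹)
    rw [mul_inv_cancel_left, mul_inv_cancel_left]

theorem key {ζ ξ : Kˣ} (hξ : ξ ^ 2 ≠ 1) (σ : G4 K ≃* G4 K)
    (hσ : ∀ h ∈ X4 K, σ h ∈ X4 K) (hT : ∀ h, InT ζ h → InT ξ (σ h)) {m : ℕ}
    (hm : ζ ^ (2 * m) = 1) : ξ ^ (2 * m) = 1 := by
  obtain ⟨π, θ, hinj, h1, h2, h3⟩ := rigid σ hσ
  have hw : ∀ ζ : Kˣ, rho (w ζ) ≠ 1 := fun ζ h => w_notMem_center _ (rho_eq_one.mp h)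
  have hθ : ∀ ζ : Kˣ, θ (w ζ) ≠ 1 := fun ζ h => hw ζ ((h3 _).mp h)
  have hθ2 : ∀ ζ : Kˣ, θ (w ζ) * θ (w ζ) = 1 := fun ζ => by
    rw [← map_mul, w_mul_self, map_one]
  -- the two test elements
  let y : G4 K := Pi.mulSingle 0 (w 1) * Pi.mulSingle 1 (w 1)
  let z : G4 K := Pi.mulSingle 2 (w ζ) * Pi.mulSingle 3 (w ζ)
  have hy : InT ζ y := by
    refine ⟨?_, ?_, ?_, ?_, ?_⟩
    · simp [y, Pi.mulSingle_apply]
    · simp [y, Pi.mulSingle_apply]
    · simp [y, Pi.mulSingle_apply]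
    · simp [y, Pi.mulSingle_apply]
    · show _ * _ * _ * _ = 1
      simp [y, Pi.mulSingle_apply, w_mul_self]
  have hz : InT ζ z := by
    refine ⟨?_, ?_, ?_, ?_, ?_⟩
    · simp [z, Pi.mulSingle_apply]
    · simp [z, Pi.mulSingle_apply]
    · simp [z, Pi.mulSingle_apply]
    · simp [z, Pi.mulSingle_apply]
    · show _ * _ * _ * _ = 1
      simp [z, Pi.mulSingle_apply, w_mul_self]
  have hy' := hT y hy
  have hz' := hT z hz
  have h01 : π 0 ≠ π 1 := fun h => absurd (hinj h) (by decide)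
  have h23 : π 2 ≠ π 3 := fun h => absurd (hinj h) (by decide)
  have ry0 : rho (σ y (π 0)) = θ (w 1) := by
    show rho (σ (_ * _) (π 0)) = _
    rw [map_mul, Pi.mul_apply, map_mul, h2, h1 _ _ _ h01, mul_one]
  have ry1 : rho (σ y (π 1)) = θ (w 1) := by
    show rho (σ (_ * _) (π 1)) = _
    rw [map_mul, Pi.mul_apply, map_mul, h2, h1 _ _ _ h01.symm, one_mul]
  have ryj : ∀ j, j ≠ π 0 → j ≠ π 1 → rho (σ y j) = 1 := by
    intro j hj0 hj1
    show rho (σ (_ * _) j) = _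
    rw [map_mul, Pi.mul_apply, map_mul, h1 _ _ _ hj0, h1 _ _ _ hj1, mul_one]
  have rz2 : rho (σ z (π 2)) = θ (w ζ) := by
    show rho (σ (_ * _) (π 2)) = _
    rw [map_mul, Pi.mul_apply, map_mul, h2, h1 _ _ _ h23, mul_one]
  obtain ⟨hy0, hy1, hy2, hy3, -⟩ := id hy'
  obtain ⟨hz0, hz1, hz2, hz3, -⟩ := id hz'
  obtain ⟨r01, r23⟩ := hy'.rho01 hξ
  have e1 : (π 0 = 0 ∨ π 0 = 1) → θ (w 1) = rho (w 1) := by
    intro h
    rw [← ry0]
    apply rho_eq_w
    · rcases h with h | h <;> rw [h] <;> assumption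
    · rw [ry0]; exact hθ 1
    · rw [ry0]; exact hθ2 1
  have e2 : (π 0 = 2 ∨ π 0 = 3) → θ (w 1) = rho (w ξ) := by
    intro h
    rw [← ry0]
    apply rho_eq_w
    · rcases h with h | h <;> rw [h] <;> assumption
    · rw [ry0]; exact hθ 1
    · rw [ry0]; exact hθ2 1
  have e3 : (π 2 = 0 ∨ π 2 = 1) → θ (w ζ) = rho (w 1) := by
    intro h
    rw [← rz2]
    apply rho_eq_w
    · rcases h with h | h <;> rw [h] <;> assumption
    · rw [rz2]; exact hθ ζ
    · rw [rz2]; exact hθ2 ζ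
  have e4 : (π 2 = 2 ∨ π 2 = 3) → θ (w ζ) = rho (w ξ) := by
    intro h
    rw [← rz2]
    apply rho_eq_w
    · rcases h with h | h <;> rw [h] <;> assumption
    · rw [rz2]; exact hθ ζ
    · rw [rz2]; exact hθ2 ζ
  -- the partner of `π 0`
  have part : ∀ i j : Fin 4, i ≠ j → rho (σ y i) * rho (σ y j) = 1 → π 0 = i → π 1 = j := by
    intro i j hij hr hi
    by_contra hne
    have h4 : rho (σ y j) = 1 := ryj j (fun h => hij (hi ▸ h.symm)) (fun h => hne h.symm)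
    rw [h4, mul_one, ← hi, ry0] at hr
    exact hθ 1 hr
  have part' : ∀ i j : Fin 4, i ≠ j → rho (σ y j) * rho (σ y i) = 1 → π 0 = i → π 1 = j := by
    intro i j hij hr hi
    by_contra hne
    have h4 : rho (σ y j) = 1 := ryj j (fun h => hij (hi ▸ h.symm)) (fun h => hne h.symm)
    rw [h4, one_mul, ← hi, ry0] at hr
    exact hθ 1 hr
  have p0 := part 0 1 (by decide) r01
  have p1 := part' 1 0 (by decide) r01
  have p2 := part 2 3 (by decide) r23
  have p3 := part' 3 2 (by decide) r23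
  have h20 : π 2 ≠ π 0 := fun h => absurd (hinj h) (by decide)
  have h21 : π 2 ≠ π 1 := fun h => absurd (hinj h) (by decide)
  have hc : θ ((w 1 * w ζ) ^ m) = 1 := by
    rw [h3, rho_eq_one, w_mul_w_pow, one_mul, inv_pow, hm, inv_one]
  rw [map_pow, map_mul] at hc
  have hcases : ∀ a : Fin 4, a = 0 ∨ a = 1 ∨ a = 2 ∨ a = 3 := by decide
  have fin1 : θ (w 1) = rho (w 1) → θ (w ζ) = rho (w ξ) → ξ ^ (2 * m) = 1 := by
    intro f1 f2
    rw [f1, f2, ← map_mul, ← map_pow, rho_eq_one, w_mul_w_pow, one_mul, inv_pow, inv_eq_one] at hc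
    exact hc
  have fin2 : θ (w 1) = rho (w ξ) → θ (w ζ) = rho (w 1) → ξ ^ (2 * m) = 1 := by
    intro f1 f2
    rw [f1, f2, ← map_mul, ← map_pow, rho_eq_one, w_mul_w_pow, inv_one, mul_one] at hc
    exact hc
  rcases hcases (π 0) with h | h | h | h
  · have q := p0 h
    rw [h] at h20
    rw [q] at h21
    rcases hcases (π 2) with h' | h' | h' | h'
    · exact absurd h' h20
    · exact absurd h' h21
    · exact fin1 (e1 (Or.inl h)) (e4 (Or.inl h'))
    · exact fin1 (e1 (Or.inl h)) (e4 (Or.inr h'))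
  · have q := p1 h
    rw [h] at h20
    rw [q] at h21
    rcases hcases (π 2) with h' | h' | h' | h'
    · exact absurd h' h21
    · exact absurd h' h20
    · exact fin1 (e1 (Or.inr h)) (e4 (Or.inl h'))
    · exact fin1 (e1 (Or.inr h)) (e4 (Or.inr h'))
  · have q := p2 h
    rw [h] at h20
    rw [q] at h21
    rcases hcases (π 2) with h' | h' | h' | h'
    · exact fin2 (e2 (Or.inl h)) (e3 (Or.inl h'))
    · exact fin2 (e2 (Or.inl h)) (e3 (Or.inr h'))
    · exact absurd h' h20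
    · exact absurd h' h21
  · have q := p3 h
    rw [h] at h20
    rw [q] at h21
    rcases hcases (π 2) with h' | h' | h' | h'
    · exact fin2 (e2 (Or.inr h)) (e3 (Or.inl h'))
    · exact fin2 (e2 (Or.inr h)) (e3 (Or.inr h'))
    · exact absurd h' h21
    · exact absurd h' h20

/-! ### The tori -/

/-- The parametrization of the torus `T_ζ`. -/
def phi (ζ : Kˣ) : (Fin 5 → Kˣ) →* G4 K where
  toFun t := ![P 1 (t 0, t 1), P 1 ((t 0)⁻¹ * t 4, (t 1)⁻¹ * t 4), P ζ (t 2, t 3),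
    P ζ ((t 2)⁻¹ * (t 4)⁻¹, (t 3)⁻¹ * (t 4)⁻¹)]
  map_one' := by
    have h1 : ((1 : Kˣ), (1 : Kˣ)) = 1 := rfl
    funext i
    fin_cases i <;> simp [h1]
  map_mul' x y := by
    funext i
    fin_cases i
    · show P 1 _ = P 1 _ * P 1 _
      rw [← map_mul]; rfl
    · show P 1 _ = P 1 _ * P 1 _
      rw [← map_mul]
      congr 1
      apply Prod.ext
      · show (x 0 * y 0)⁻¹ * (x 4 * y 4) = (x 0)⁻¹ * x 4 * ((y 0)⁻¹ * y 4)
        rw [mul_inv, mul_mul_mul_comm]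
      · show (x 1 * y 1)⁻¹ * (x 4 * y 4) = (x 1)⁻¹ * x 4 * ((y 1)⁻¹ * y 4)
        rw [mul_inv, mul_mul_mul_comm]
    · show P ζ _ = P ζ _ * P ζ _
      rw [← map_mul]; rfl
    · show P ζ _ = P ζ _ * P ζ _
      rw [← map_mul]
      congr 1
      apply Prod.ext
      · show (x 2 * y 2)⁻¹ * (x 4 * y 4)⁻¹ = (x 2)⁻¹ * (x 4)⁻¹ * ((y 2)⁻¹ * (y 4)⁻¹)
        rw [mul_inv, mul_inv, mul_mul_mul_comm]
      · show (x 3 * y 3)⁻¹ * (x 4 * y 4)⁻¹ = (x 3)⁻¹ * (x 4)⁻¹ * ((y 3)⁻¹ * (y 4)⁻¹)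
        rw [mul_inv, mul_inv, mul_mul_mul_comm]

theorem phi_0 (ζ : Kˣ) (t : Fin 5 → Kˣ) : phi ζ t 0 = P 1 (t 0, t 1) := rfl
theorem phi_1 (ζ : Kˣ) (t : Fin 5 → Kˣ) :
    phi ζ t 1 = P 1 ((t 0)⁻¹ * t 4, (t 1)⁻¹ * t 4) := rfl
theorem phi_2 (ζ : Kˣ) (t : Fin 5 → Kˣ) : phi ζ t 2 = P ζ (t 2, t 3) := rfl
theorem phi_3 (ζ : Kˣ) (t : Fin 5 → Kˣ) :
    phi ζ t 3 = P ζ ((t 2)⁻¹ * (t 4)⁻¹, (t 3)⁻¹ * (t 4)⁻¹) := rfl

theorem P_diag (ζ ξ : Kˣ) (a : Kˣ) : P ζ (a, a) = P ξ (a, a) := by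
  apply Units.ext
  rw [P_val, P_val]
  unfold Pm
  simp

theorem phi_inT (ζ : Kˣ) (t : Fin 5 → Kˣ) : InT ζ (phi ζ t) := by
  refine ⟨P_commute_w _ _, P_commute_w _ _, P_commute_w _ _, P_commute_w _ _, ?_⟩
  show phi ζ t 0 * phi ζ t 1 * phi ζ t 2 * phi ζ t 3 = 1
  rw [phi_0, phi_1, phi_2, phi_3, mul_assoc, ← map_mul, ← map_mul]
  have e1 : ((t 0, t 1) * ((t 0)⁻¹ * t 4, (t 1)⁻¹ * t 4) : Kˣ × Kˣ) = (t 4, t 4) := by
    apply Prod.ext
    · show t 0 * ((t 0)⁻¹ * t 4) = t 4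
      rw [mul_inv_cancel_left]
    · show t 1 * ((t 1)⁻¹ * t 4) = t 4
      rw [mul_inv_cancel_left]
  have e2 : ((t 2, t 3) * ((t 2)⁻¹ * (t 4)⁻¹, (t 3)⁻¹ * (t 4)⁻¹) : Kˣ × Kˣ) =
      ((t 4)⁻¹, (t 4)⁻¹) := by
    apply Prod.ext
    · show t 2 * ((t 2)⁻¹ * (t 4)⁻¹) = (t 4)⁻¹
      rw [mul_inv_cancel_left]
    · show t 3 * ((t 3)⁻¹ * (t 4)⁻¹) = (t 4)⁻¹
      rw [mul_inv_cancel_left]
  rw [e1, e2, P_diag 1 ζ, ← map_mul]
  have e3 : ((t 4, t 4) * ((t 4)⁻¹, (t 4)⁻¹) : Kˣ × Kˣ) = 1 := by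
    apply Prod.ext
    · show t 4 * (t 4)⁻¹ = 1
      rw [mul_inv_cancel]
    · show t 4 * (t 4)⁻¹ = 1
      rw [mul_inv_cancel]
  rw [e3, map_one]

/-- The torus `T_ζ`. -/
def TT (ζ : Kˣ) : Subgroup (G4 K) := (phi ζ).range

theorem mem_TT_iff {ζ : Kˣ} (hζ : ζ ^ 2 ≠ 1) {h : G4 K} : h ∈ TT ζ ↔ InT ζ h := by
  constructor
  · rintro ⟨t, rfl⟩
    exact phi_inT ζ t
  · intro hh
    obtain ⟨a, b, c, d, z, e0, e1, e2, e3⟩ := exists_params hζ hh
    refine ⟨![a, b, c, d, z], ?_⟩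
    funext i
    fin_cases i
    · exact e0.symm
    · exact e1.symm
    · exact e2.symm
    · exact e3.symm

/-! ### Regular functions -/

omit [CharZero K] in
theorem ent_mem {n r : ℕ} (i : Fin r) (j k : Fin n) :
    (fun h : GLr K n r => (h i : Matrix _ _ K) j k) ∈ regG K n r :=
  Algebra.subset_adjoin (Or.inl ⟨i, j, k, rfl⟩)

omit [CharZero K] in
theorem det_mem {n r : ℕ} (i : Fin r) :
    (fun h : GLr K n r => ((h i : Matrix (Fin n) (Fin n) K).det)⁻¹) ∈ regG K n r :=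
  Algebra.subset_adjoin (Or.inr ⟨i, rfl⟩)

omit [CharZero K] in
theorem coord_mem {d : ℕ} (i : Fin d) : (fun t : Fin d → Kˣ => ((t i : Kˣ) : K)) ∈ regT K d :=
  Algebra.subset_adjoin (Or.inl ⟨i, rfl⟩)

omit [CharZero K] in
theorem coord_inv_mem {d : ℕ} (i : Fin d) :
    (fun t : Fin d → Kˣ => (((t i)⁻¹ : Kˣ) : K)) ∈ regT K d :=
  Algebra.subset_adjoin (Or.inr ⟨i, rfl⟩)

/-- Pulling back functions. -/
def pull {α β : Type*} (f : α → β) : (β → K) →ₐ[K] (α → K) where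
  toFun u := u ∘ f
  map_one' := rfl
  map_mul' _ _ := rfl
  map_zero' := rfl
  map_add' _ _ := rfl
  commutes' _ := rfl

/-- Matrix valued functions with regular entries. -/
def RegMat (A : G4 K → M2 K) : Prop := ∀ j k, (fun h => A h j k) ∈ regG K 2 4

omit [CharZero K] in
theorem RegMat.mul {A B : G4 K → M2 K} (hA : RegMat A) (hB : RegMat B) :
    RegMat (fun h => A h * B h) := by
  intro j k
  have : (fun h => (A h * B h) j k) = (fun h => A h j 0) * (fun h => B h 0 k) +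
      (fun h => A h j 1) * (fun h => B h 1 k) := by
    funext h
    simp [Matrix.mul_apply, Fin.sum_univ_two]
  rw [this]
  exact add_mem (mul_mem (hA j 0) (hB 0 k)) (mul_mem (hA j 1) (hB 1 k))

omit [CharZero K] in
theorem RegMat.sub {A B : G4 K → M2 K} (hA : RegMat A) (hB : RegMat B) :
    RegMat (fun h => A h - B h) := by
  intro j k
  have : (fun h => (A h - B h) j k) = (fun h => A h j k) - (fun h => B h j k) := by
    funext h
    simp
  rw [this]
  exact sub_mem (hA j k) (hB j k)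

omit [CharZero K] in
theorem RegMat.const (A : M2 K) : RegMat (fun _ => A) := by
  intro j k
  exact (regG K 2 4).algebraMap_mem (A j k)

omit [CharZero K] in
theorem RegMat.coord (i : Fin 4) : RegMat (fun h : G4 K => (h i : M2 K)) := fun j k =>
  ent_mem i j k

theorem TT_closed {ζ : Kˣ} (hζ : ζ ^ 2 ≠ 1) : IsZariskiClosed (TT ζ : Set (G4 K)) := by
  let A : Fin 5 → G4 K → M2 K := ![
    fun h => (h 0 : M2 K) * ((w 1 : GL (Fin 2) K) : M2 K) - ((w 1 : GL (Fin 2) K) : M2 K) * (h 0 : M2 K),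
    fun h => (h 1 : M2 K) * ((w 1 : GL (Fin 2) K) : M2 K) - ((w 1 : GL (Fin 2) K) : M2 K) * (h 1 : M2 K),
    fun h => (h 2 : M2 K) * ((w ζ : GL (Fin 2) K) : M2 K) - ((w ζ : GL (Fin 2) K) : M2 K) * (h 2 : M2 K),
    fun h => (h 3 : M2 K) * ((w ζ : GL (Fin 2) K) : M2 K) - ((w ζ : GL (Fin 2) K) : M2 K) * (h 3 : M2 K),
    fun h => (h 0 : M2 K) * (h 1 : M2 K) * (h 2 : M2 K) * (h 3 : M2 K) - 1]
  have hA : ∀ i, RegMat (A i) := by
    intro i
    fin_cases i
    · exact ((RegMat.coord 0).mul (RegMat.const _)).sub ((RegMat.const _).mul (RegMat.coord 0))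
    · exact ((RegMat.coord 1).mul (RegMat.const _)).sub ((RegMat.const _).mul (RegMat.coord 1))
    · exact ((RegMat.coord 2).mul (RegMat.const _)).sub ((RegMat.const _).mul (RegMat.coord 2))
    · exact ((RegMat.coord 3).mul (RegMat.const _)).sub ((RegMat.const _).mul (RegMat.coord 3))
    · exact ((((RegMat.coord 0).mul (RegMat.coord 1)).mul (RegMat.coord 2)).mul
        (RegMat.coord 3)).sub (RegMat.const 1)
  refine ⟨{f | ∃ i j k, f = fun h => A i h j k}, ?_, ?_⟩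
  · rintro _ ⟨i, j, k, rfl⟩
    exact hA i j k
  · ext h
    rw [SetLike.mem_coe, mem_TT_iff hζ]
    have hiff : (∀ f ∈ {f : G4 K → K | ∃ i j k, f = fun h => A i h j k}, f h = 0) ↔
        ∀ i, A i h = 0 := by
      constructor
      · intro H i
        ext j k
        exact H _ ⟨i, j, k, rfl⟩
      · rintro H _ ⟨i, j, k, rfl⟩
        show A i h j k = 0
        rw [H i]; rfl
    rw [Set.mem_ofPred_eq, hiff, Fin.forall_fin_succ, Fin.forall_fin_succ, Fin.forall_fin_succ,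
      Fin.forall_fin_succ, Fin.forall_fin_one]
    unfold InT
    have hc : ∀ (a b : GL (Fin 2) K), Commute a b ↔ (a : M2 K) * (b : M2 K) -
        (b : M2 K) * (a : M2 K) = 0 := by
      intro a b
      rw [sub_eq_zero]
      constructor
      · intro h; exact congrArg Units.val h.eq
      · intro h; exact Units.ext h
    have hX : h ∈ X4 K ↔ (h 0 : M2 K) * (h 1 : M2 K) * (h 2 : M2 K) * (h 3 : M2 K) - 1 = 0 := by
      rw [sub_eq_zero]
      constructor
      · intro h'; exact congrArg Units.val h'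
      · intro h'; exact Units.ext h'
    rw [hc, hc, hc, hc, hX]
    rfl

theorem phi_injective (ζ : Kˣ) : Function.Injective (phi ζ) := by
  have hP : ∀ (ζ : Kˣ) (x y : Kˣ × Kˣ), P ζ x = P ζ y → x = y := by
    intro ζ x y h
    have h1 : Pm ζ x.1 x.2 = Pm ζ y.1 y.2 := congrArg Units.val h
    have e00 := congrFun (congrFun h1 0) 0
    have e01 := congrFun (congrFun h1 0) 1
    unfold Pm at e00 e01
    simp only [Matrix.of_apply, Matrix.cons_val', Matrix.cons_val_zero, Matrix.cons_val_one,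
      Fin.isValue] at e00 e01
    have e2 := mul_left_cancel₀ ζ.ne_zero e01
    have h2 : (2 : K) ≠ 0 := two_ne_zero
    field_simp at e00 e2
    apply Prod.ext
    · apply Units.ext
      have : (2 : K) * x.1 = 2 * y.1 := by linear_combination e00 + e2
      exact mul_left_cancel₀ h2 this
    · apply Units.ext
      have : (2 : K) * x.2 = 2 * y.2 := by linear_combination e00 - e2
      exact mul_left_cancel₀ h2 this
  intro s t hst
  have h0 := hP 1 _ _ (congrFun hst 0)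
  have h1 := hP 1 _ _ (congrFun hst 1)
  have h2 := hP ζ _ _ (congrFun hst 2)
  have e0 : s 0 = t 0 := congrArg Prod.fst h0
  have e1 : s 1 = t 1 := congrArg Prod.snd h0
  have e2 : s 2 = t 2 := congrArg Prod.fst h2
  have e3 : s 3 = t 3 := congrArg Prod.snd h2
  have e4 : (s 0)⁻¹ * s 4 = (t 0)⁻¹ * t 4 := congrArg Prod.fst h1
  rw [e0] at e4
  have e5 := mul_left_cancel e4
  funext i
  fin_cases i <;> assumption

theorem Pm_det (ζ : Kˣ) (a b : K) : (Pm ζ a b).det = a * b := by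
  have h1 : (ζ : K) * (ζ⁻¹ : Kˣ) = 1 := Units.mul_inv ζ
  unfold Pm
  rw [Matrix.det_fin_two_of]
  linear_combination (-((a - b) / 2 * ((a - b) / 2))) * h1

theorem pull_regG (ζ : Kˣ) : (regG K 2 4).map (pull (K := K) (phi ζ)) = regT K 5 := by
  apply le_antisymm
  · rw [Subalgebra.map_le]
    apply Algebra.adjoin_le
    -- entries of `P ξ (x, y)` for regular `x`, `y`
    have hent : ∀ (ξ : Kˣ) (x y : (Fin 5 → Kˣ) → Kˣ), (fun t => ((x t : Kˣ) : K)) ∈ regT K 5 →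
        (fun t => ((y t : Kˣ) : K)) ∈ regT K 5 → ∀ j k,
        (fun t => ((P ξ (x t, y t) : GL (Fin 2) K) : M2 K) j k) ∈ regT K 5 := by
      intro ξ x y hx hy j k
      have hs : (fun t => (((x t : Kˣ) : K) + y t) / 2) ∈ regT K 5 := by
        have : (fun t => (((x t : Kˣ) : K) + y t) / 2) = (2⁻¹ : K) •
            ((fun t => ((x t : Kˣ) : K)) + fun t => ((y t : Kˣ) : K)) := by
          funext t; simp; ring
        rw [this]
        exact Subalgebra.smul_mem _ (add_mem hx hy) _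
      have hd : ∀ c : K, (fun t => c * ((((x t : Kˣ) : K) - y t) / 2)) ∈ regT K 5 := by
        intro c
        have : (fun t => c * ((((x t : Kˣ) : K) - y t) / 2)) = (c * 2⁻¹ : K) •
            ((fun t => ((x t : Kˣ) : K)) - fun t => ((y t : Kˣ) : K)) := by
          funext t; simp; ring
        rw [this]
        exact Subalgebra.smul_mem _ (sub_mem hx hy) _
      fin_cases j <;> fin_cases k
      · exact hs
      · exact hd _
      · exact hd _
      · exact hs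
    have hmul : ∀ (x y : (Fin 5 → Kˣ) → Kˣ), (fun t => ((x t : Kˣ) : K)) ∈ regT K 5 →
        (fun t => ((y t : Kˣ) : K)) ∈ regT K 5 → (fun t => ((x t * y t : Kˣ) : K)) ∈ regT K 5 := by
      intro x y hx hy
      have : (fun t => ((x t * y t : Kˣ) : K)) = (fun t => ((x t : Kˣ) : K)) *
          fun t => ((y t : Kˣ) : K) := by
        funext t; simp
      rw [this]
      exact mul_mem hx hy
    have hdet : ∀ (ξ : Kˣ) (x y : (Fin 5 → Kˣ) → Kˣ), (fun t => (((x t)⁻¹ : Kˣ) : K)) ∈ regT K 5 →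
        (fun t => (((y t)⁻¹ : Kˣ) : K)) ∈ regT K 5 →
        (fun t => (((P ξ (x t, y t) : GL (Fin 2) K) : M2 K).det)⁻¹) ∈ regT K 5 := by
      intro ξ x y hx hy
      have : (fun t => (((P ξ (x t, y t) : GL (Fin 2) K) : M2 K).det)⁻¹) =
          (fun t => (((x t)⁻¹ : Kˣ) : K)) * fun t => (((y t)⁻¹ : Kˣ) : K) := by
        funext t
        rw [P_val, Pm_det]
        simp [mul_comm]
      rw [this]
      exact mul_mem hx hy
    have c := coord_mem (K := K) (d := 5)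
    have ci := coord_inv_mem (K := K) (d := 5)
    rintro f (⟨i, j, k, rfl⟩ | ⟨i, rfl⟩)
    · show (fun t => ((phi ζ t i : GL (Fin 2) K) : M2 K) j k) ∈ regT K 5
      fin_cases i
      · exact hent 1 _ _ (c 0) (c 1) j k
      · exact hent 1 _ _ (hmul _ _ (ci 0) (c 4)) (hmul _ _ (ci 1) (c 4)) j k
      · exact hent ζ _ _ (c 2) (c 3) j k
      · exact hent ζ _ _ (hmul _ _ (ci 2) (ci 4)) (hmul _ _ (ci 3) (ci 4)) j k
    · show (fun t => (((phi ζ t i : GL (Fin 2) K) : M2 K).det)⁻¹) ∈ regT K 5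
      fin_cases i
      · exact hdet 1 (fun t => t 0) (fun t => t 1) (ci 0) (ci 1)
      · apply hdet 1 (fun t => (t 0)⁻¹ * t 4) (fun t => (t 1)⁻¹ * t 4)
        · simp only [mul_inv, inv_inv]; exact hmul _ _ (c 0) (ci 4)
        · simp only [mul_inv, inv_inv]; exact hmul _ _ (c 1) (ci 4)
      · exact hdet ζ (fun t => t 2) (fun t => t 3) (ci 2) (ci 3)
      · apply hdet ζ (fun t => (t 2)⁻¹ * (t 4)⁻¹) (fun t => (t 3)⁻¹ * (t 4)⁻¹)
        · simp only [mul_inv, inv_inv]; exact hmul _ _ (c 2) (c 4)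
        · simp only [mul_inv, inv_inv]; exact hmul _ _ (c 3) (c 4)
  · apply Algebra.adjoin_le
    -- the functions `a` and `b` on the tori
    have hz : ∀ ξ : Kˣ, ((ξ⁻¹ : Kˣ) : K) * (ξ : K) = 1 := fun ξ => Units.inv_mul ξ
    let fa : Kˣ → Fin 4 → G4 K → K := fun ξ i h =>
      (h i : M2 K) 0 0 + ((ξ⁻¹ : Kˣ) : K) * (h i : M2 K) 0 1
    let fb : Kˣ → Fin 4 → G4 K → K := fun ξ i h =>
      (h i : M2 K) 0 0 - ((ξ⁻¹ : Kˣ) : K) * (h i : M2 K) 0 1
    have hfa : ∀ ξ i, fa ξ i ∈ regG K 2 4 := fun ξ i =>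
      add_mem (ent_mem i 0 0) (Subalgebra.smul_mem _ (ent_mem i 0 1) ((ξ⁻¹ : Kˣ) : K))
    have hfb : ∀ ξ i, fb ξ i ∈ regG K 2 4 := fun ξ i =>
      sub_mem (ent_mem i 0 0) (Subalgebra.smul_mem _ (ent_mem i 0 1) ((ξ⁻¹ : Kˣ) : K))
    have ea : ∀ (ξ : Kˣ) (x y : Kˣ), (Pm ξ x y) 0 0 + ((ξ⁻¹ : Kˣ) : K) * (Pm ξ x y) 0 1 = x := by
      intro ξ x y
      show ((x : K) + y) / 2 + ((ξ⁻¹ : Kˣ) : K) * ((ξ : K) * (((x : K) - y) / 2)) = x
      linear_combination ((x : K) - y) / 2 * hz ξ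
    have eb : ∀ (ξ : Kˣ) (x y : Kˣ), (Pm ξ x y) 0 0 - ((ξ⁻¹ : Kˣ) : K) * (Pm ξ x y) 0 1 = y := by
      intro ξ x y
      show ((x : K) + y) / 2 - ((ξ⁻¹ : Kˣ) : K) * ((ξ : K) * (((x : K) - y) / 2)) = y
      linear_combination (-(((x : K) - y) / 2)) * hz ξ
    have hfd : ∀ i, (fun h : G4 K => ((h i : M2 K).det)⁻¹) ∈ regG K 2 4 := fun i => det_mem i
    have key : ∀ (f : G4 K → K) (u : (Fin 5 → Kˣ) → K), f ∈ regG K 2 4 →
        (∀ t, f (phi ζ t) = u t) → u ∈ (regG K 2 4).map (pull (K := K) (phi ζ)) := by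
      intro f u hf hu
      exact ⟨f, hf, funext hu⟩
    have d0 : ∀ t : Fin 5 → Kˣ, ((phi ζ t 0 : M2 K).det)⁻¹ = ((t 0 : K) * t 1)⁻¹ := by
      intro t; rw [phi_0, P_val, Pm_det]
    have d2 : ∀ t : Fin 5 → Kˣ, ((phi ζ t 2 : M2 K).det)⁻¹ = ((t 2 : K) * t 3)⁻¹ := by
      intro t; rw [phi_2, P_val, Pm_det]
    rintro u (⟨i, rfl⟩ | ⟨i, rfl⟩)
    · fin_cases i
      · exact key (fa 1 0) _ (hfa _ _) (fun t => ea 1 (t 0) (t 1))
      · exact key (fb 1 0) _ (hfb _ _) (fun t => eb 1 (t 0) (t 1))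
      · exact key (fa ζ 2) _ (hfa _ _) (fun t => ea ζ (t 2) (t 3))
      · exact key (fb ζ 2) _ (hfb _ _) (fun t => eb ζ (t 2) (t 3))
      · refine key (fa 1 0 * fa 1 1) _ (mul_mem (hfa _ _) (hfa _ _)) (fun t => ?_)
        have e1 : fa 1 0 (phi ζ t) = t 0 := ea 1 (t 0) (t 1)
        have e2 : fa 1 1 (phi ζ t) = ((t 0)⁻¹ * t 4 : Kˣ) := ea 1 _ _
        show fa 1 0 (phi ζ t) * fa 1 1 (phi ζ t) = _
        rw [e1, e2, ← Units.val_mul, mul_inv_cancel_left]; rfl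
    · fin_cases i
      · refine key (fb 1 0 * fun h => ((h 0 : M2 K).det)⁻¹) _ (mul_mem (hfb _ _) (hfd 0))
          (fun t => ?_)
        have e1 : fb 1 0 (phi ζ t) = t 1 := eb 1 (t 0) (t 1)
        show fb 1 0 (phi ζ t) * ((phi ζ t 0 : M2 K).det)⁻¹ = (((t 0)⁻¹ : Kˣ) : K)
        rw [e1, d0]
        have := (t 1).ne_zero
        have := (t 0).ne_zero
        simp only [Units.val_inv_eq_inv_val]
        field_simp
      · refine key (fa 1 0 * fun h => ((h 0 : M2 K).det)⁻¹) _ (mul_mem (hfa _ _) (hfd 0))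
          (fun t => ?_)
        have e1 : fa 1 0 (phi ζ t) = t 0 := ea 1 (t 0) (t 1)
        show fa 1 0 (phi ζ t) * ((phi ζ t 0 : M2 K).det)⁻¹ = (((t 1)⁻¹ : Kˣ) : K)
        rw [e1, d0]
        have := (t 1).ne_zero
        have := (t 0).ne_zero
        simp only [Units.val_inv_eq_inv_val]
        field_simp
      · refine key (fb ζ 2 * fun h => ((h 2 : M2 K).det)⁻¹) _ (mul_mem (hfb _ _) (hfd 2))
          (fun t => ?_)
        have e1 : fb ζ 2 (phi ζ t) = t 3 := eb ζ (t 2) (t 3)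
        show fb ζ 2 (phi ζ t) * ((phi ζ t 2 : M2 K).det)⁻¹ = (((t 2)⁻¹ : Kˣ) : K)
        rw [e1, d2]
        have := (t 2).ne_zero
        have := (t 3).ne_zero
        simp only [Units.val_inv_eq_inv_val]
        field_simp
      · refine key (fa ζ 2 * fun h => ((h 2 : M2 K).det)⁻¹) _ (mul_mem (hfa _ _) (hfd 2))
          (fun t => ?_)
        have e1 : fa ζ 2 (phi ζ t) = t 2 := ea ζ (t 2) (t 3)
        show fa ζ 2 (phi ζ t) * ((phi ζ t 2 : M2 K).det)⁻¹ = (((t 3)⁻¹ : Kˣ) : K)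
        rw [e1, d2]
        have := (t 2).ne_zero
        have := (t 3).ne_zero
        simp only [Units.val_inv_eq_inv_val]
        field_simp
      · refine key (fa ζ 2 * fa ζ 3) _ (mul_mem (hfa _ _) (hfa _ _)) (fun t => ?_)
        have e1 : fa ζ 2 (phi ζ t) = t 2 := ea ζ (t 2) (t 3)
        have e2 : fa ζ 3 (phi ζ t) = ((t 2)⁻¹ * (t 4)⁻¹ : Kˣ) := ea ζ _ _
        show fa ζ 2 (phi ζ t) * fa ζ 3 (phi ζ t) = _
        rw [e1, e2, ← Units.val_mul, mul_inv_cancel_left]; rfl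

theorem TT_isTorus {ζ : Kˣ} (hζ : ζ ^ 2 ≠ 1) : IsTorus (TT ζ) := by
  refine ⟨TT_closed hζ, 5, MonoidHom.ofInjective (phi_injective ζ), ?_⟩
  intro u
  rw [← pull_regG ζ]
  constructor
  · rintro ⟨f, hf, rfl⟩
    exact ⟨f, hf, rfl⟩
  · rintro ⟨f, hf, rfl⟩
    exact ⟨f, hf, rfl⟩

theorem TT_maximal {ζ : Kˣ} (hζ : ζ ^ 2 ≠ 1) : IsMaxTorusIn (X4 K) (TT ζ) := by
  refine ⟨TT_isTorus hζ, ?_, ?_⟩
  · intro h hh
    exact ((mem_TT_iff hζ).mp hh).2.2.2.2
  · rintro T' ⟨-, d, φ, -⟩ hX hle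
    apply le_antisymm _ hle
    intro h hh
    have hcomm : ∀ x ∈ T', Commute h x := by
      intro x hx
      have h1 : (⟨h, hh⟩ : T') * ⟨x, hx⟩ = ⟨x, hx⟩ * ⟨h, hh⟩ := by
        apply φ.symm.injective
        rw [map_mul, map_mul, mul_comm]
      exact congrArg Subtype.val h1
    have hpt : ∀ t, Commute h (phi ζ t) := fun t => hcomm _ (hle ⟨t, rfl⟩)
    have c1 := hpt ![1, -1, 1, 1, 1]
    have c2 := hpt ![1, 1, 1, -1, 1]
    rw [mem_TT_iff hζ]
    have cc : ∀ t i, Commute h (phi ζ t) → Commute (h i) (phi ζ t i) := fun t i hc =>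
      congrFun hc.eq i
    have e0 : phi ζ ![1, -1, 1, 1, 1] 0 = w 1 := by
      rw [phi_0]
      exact congrArg (P 1) (Prod.ext rfl rfl)
    have e1 : phi ζ ![1, -1, 1, 1, 1] 1 = w 1 := by
      rw [phi_1]
      have e : ((1 : Kˣ)⁻¹ * 1, (-1 : Kˣ)⁻¹ * 1) = ((1 : Kˣ), (-1 : Kˣ)) := by simp
      exact congrArg (P 1) e
    have e2 : phi ζ ![1, 1, 1, -1, 1] 2 = w ζ := by
      rw [phi_2]
      exact congrArg (P ζ) (Prod.ext rfl rfl)
    have e3 : phi ζ ![1, 1, 1, -1, 1] 3 = w ζ := by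
      rw [phi_3]
      have e : ((1 : Kˣ)⁻¹ * 1⁻¹, (-1 : Kˣ)⁻¹ * 1⁻¹) = ((1 : Kˣ), (-1 : Kˣ)) := by simp
      exact congrArg (P ζ) e
    have f0 := cc _ 0 c1
    have f1 := cc _ 1 c1
    have f2 := cc _ 2 c2
    have f3 := cc _ 3 c2
    rw [e0] at f0
    rw [e1] at f1
    rw [e2] at f2
    rw [e3] at f3
    exact ⟨f0, f1, f2, f3, hX hh⟩

omit [CharZero K] in
theorem inH_refl (X : Set (G4 K)) : InH X (MulEquiv.refl (G4 K)) := by
  refine ⟨⟨fun f hf => hf, fun f hf => hf⟩, ?_⟩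
  show (fun h => h) '' X = X
  exact Set.image_id X

omit [CharZero K] in
theorem XX_one : XX (K := K) (n := 2) (r := 4) (fun _ => 1) = X4 K := by
  ext h
  show (List.ofFn fun i : Fin 4 => 1 * h i).prod * 1 = 1 ↔ h 0 * h 1 * h 2 * h 3 = 1
  simp [List.ofFn_succ, mul_assoc]

end Two

/-- **Theorem.** Let `K` be an algebraically closed field of characteristic zero.  There are
`n, r ≥ 1` and semisimple `M₁, …, M_{r+1} ∈ GL_n(K)` such that the maximal tori lying in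
`X = {h | M₁ h₁ ⋯ M_r h_r M_{r+1} = 1}` fall into infinitely many `H`-orbits. -/
theorem result (K : Type u) [Field K] [IsAlgClosed K] [CharZero K] :
    ∃ (n r : ℕ) (M : Fin (r + 1) → GL (Fin n) K), 1 ≤ n ∧ 1 ≤ r ∧
      (∀ i, IsDiagonalizable (M i)) ∧ (maxTorusOrbits (XX M)).Infinite := by
  refine ⟨2, 4, fun _ => 1, by norm_num, by norm_num, ?_, ?_⟩
  · intro i
    refine ⟨1, fun _ => 1, ?_⟩
    simp
  · rw [XX_one]
    -- primitive roots of unity
    have hroot : ∀ k : ℕ, ∃ ζ : Kˣ, IsPrimitiveRoot ζ (2 * (k + 2)) := by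
      intro k
      have hne : NeZero ((2 * (k + 2) : ℕ) : K) := ⟨Nat.cast_ne_zero.mpr (by omega)⟩
      obtain ⟨ζ, hζ⟩ := HasEnoughRootsOfUnity.exists_primitiveRoot K (2 * (k + 2))
      exact ⟨(hζ.isUnit (by omega)).unit, hζ.isUnit_unit (by omega)⟩
    choose ζ hζ using hroot
    have hsq : ∀ k, ζ k ^ 2 ≠ 1 := by
      intro k h
      have := (hζ k).dvd_of_pow_eq_one 2 h
      have := Nat.le_of_dvd (by norm_num) this
      omega
    apply Set.infinite_of_injective_forall_mem (f := fun k : ℕ => orbitH (X4 K) (TT (ζ k)))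
    · -- injectivity
      have hone : ∀ k l, orbitH (X4 K) (TT (ζ k)) = orbitH (X4 K) (TT (ζ l)) →
          l + 2 ∣ k + 2 := by
        intro k l h
        have h1 : TT (ζ l) ∈ orbitH (X4 K) (TT (ζ l)) :=
          ⟨MulEquiv.refl _, inH_refl _, (Subgroup.map_id _).symm⟩
        rw [← h] at h1
        obtain ⟨σ, ⟨-, hσ⟩, hT⟩ := h1
        have hX : ∀ h ∈ X4 K, σ h ∈ X4 K := by
          intro h hh
          rw [← hσ]
          exact ⟨h, hh, rfl⟩
        have hTT : ∀ h, InT (ζ k) h → InT (ζ l) (σ h) := by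
          intro h hh
          rw [← mem_TT_iff (hsq l), hT]
          exact ⟨h, (mem_TT_iff (hsq k)).mpr hh, rfl⟩
        have h2 := key (hsq l) σ hX hTT (m := k + 2) (hζ k).pow_eq_one
        have h3 := (hζ l).dvd_of_pow_eq_one _ h2
        exact Nat.dvd_of_mul_dvd_mul_left (by norm_num) h3
      intro k l h
      have h1 := Nat.dvd_antisymm (hone k l h) (hone l k h.symm)
      omega
    · intro k
      exact ⟨_, TT_maximal (hsq k), rfl⟩

end Pool.Agent.Results.MP_629379_al.InfinitelyManyOrbits
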